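import Pool.Agent.W743.HP.Stm

/-!
Project HP, part HP-LC: the implicit function theorem along a compact interval and the intermediate
value theorem.
-/

set_option autoImplicit false

open Set Filter Topology

namespace Pool.Agent.W287.HP

theorem eventually_pos_of_hasDerivAt (h : ℝ → ℝ) (c : ℝ) (hc : 0 < c) (hd : HasDerivAt h c 0)
    (h0 : h 0 = 0) : ∀ᶠ ε in 𝓝[>] (0 : ℝ), 0 < h ε := by
  rw [hasDerivAt_iff_tendsto_slope] at hd
  have h1 : ∀ᶠ ε in 𝓝[≠] (0 : ℝ), 0 < slope h 0 ε := hd.eventually (lt_mem_nhds hc)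
  have h2 : ∀ᶠ ε in 𝓝[>] (0 : ℝ), 0 < slope h 0 ε :=
    h1.filter_mono (nhdsWithin_mono _ (fun x hx => ne_of_gt hx))
  filter_upwards [h2, self_mem_nhdsWithin] with ε h3 h4
  rw [slope_def_field, h0, sub_zero, sub_zero] at h3
  exact (div_pos_iff_of_pos_right h4).1 h3

section

variable {X : Type} [NormedAddCommGroup X] [NormedSpace ℝ X]

/-- The map `(α, ε, x) ↦ (α, ε, F (α, ε, x))`. -/
def Psi (F : ℝ × ℝ × X → X) (z : ℝ × ℝ × X) : ℝ × ℝ × X := (z.1, z.2.1, F z)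

/-- The derivative of `Psi`. -/
noncomputable def dPsi (A : ℝ × ℝ × X →L[ℝ] X) : (ℝ × ℝ × X) →L[ℝ] (ℝ × ℝ × X) :=
  (ContinuousLinearMap.fst ℝ ℝ (ℝ × X)).prod
    (((ContinuousLinearMap.fst ℝ ℝ X).comp (ContinuousLinearMap.snd ℝ ℝ (ℝ × X))).prod A)

theorem dPsi_apply (A : ℝ × ℝ × X →L[ℝ] X) (z : ℝ × ℝ × X) : dPsi A z = (z.1, z.2.1, A z) := rfl

theorem Psi_strict (F : ℝ × ℝ × X → X) (hF : ContDiff ℝ 1 F) (p : ℝ × ℝ × X) :
    HasStrictFDerivAt (Psi F) (dPsi (fderiv ℝ F p)) p := by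
  have h1 : HasStrictFDerivAt F (fderiv ℝ F p) p := hF.contDiffAt.hasStrictFDerivAt one_ne_zero
  have h2 : HasStrictFDerivAt (fun z : ℝ × ℝ × X => z.1) (ContinuousLinearMap.fst ℝ ℝ (ℝ × X)) p :=
    hasStrictFDerivAt_fst
  have h3 : HasStrictFDerivAt (fun z : ℝ × ℝ × X => z.2.1)
      ((ContinuousLinearMap.fst ℝ ℝ X).comp (ContinuousLinearMap.snd ℝ ℝ (ℝ × X))) p :=
    ((ContinuousLinearMap.fst ℝ ℝ X).comp
      (ContinuousLinearMap.snd ℝ ℝ (ℝ × X))).hasStrictFDerivAt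
  exact h2.prodMk (h3.prodMk h1)

theorem dPsi_injective (A : ℝ × ℝ × X →L[ℝ] X) (h : Function.Bijective fun v : X => A (0, 0, v)) :
    LinearMap.ker (dPsi A).toLinearMap = ⊥ := by
  rw [LinearMap.ker_eq_bot']
  rintro ⟨s, t, v⟩ hz
  have hz' : (s, t, A (s, t, v)) = ((0 : ℝ), (0 : ℝ), (0 : X)) := hz
  simp only [Prod.mk.injEq] at hz'
  obtain ⟨rfl, rfl, h3⟩ := hz'
  have h4 : A (0, 0, v) = A (0, 0, 0) := by
    rw [h3]
    exact (map_zero A).symm
  have h5 : v = 0 := h.1 h4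
  rw [h5]
  rfl

theorem dPsi_surjective (A : ℝ × ℝ × X →L[ℝ] X) (h : Function.Bijective fun v : X => A (0, 0, v)) :
    LinearMap.range (dPsi A).toLinearMap = ⊤ := by
  rw [LinearMap.range_eq_top]
  rintro ⟨s, t, w⟩
  obtain ⟨v, hv⟩ := h.2 (w - A (s, t, 0))
  refine ⟨(s, t, v), ?_⟩
  show (s, t, A (s, t, v)) = (s, t, w)
  have h1 : ((s, t, v) : ℝ × ℝ × X) = (s, t, 0) + (0, 0, v) := by simp
  have hv' : A (0, 0, v) = w - A (s, t, 0) := hv
  rw [h1, map_add, hv']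
  simp

end

section

variable {X : Type} [NormedAddCommGroup X] [NormedSpace ℝ X] [CompleteSpace X]

theorem exists_equiv (A : ℝ × ℝ × X →L[ℝ] X) (h : Function.Bijective fun v : X => A (0, 0, v)) :
    ∃ T : (ℝ × ℝ × X) ≃L[ℝ] (ℝ × ℝ × X), (T : (ℝ × ℝ × X) →L[ℝ] (ℝ × ℝ × X)) = dPsi A :=
  ⟨ContinuousLinearEquiv.ofBijective (dPsi A) (dPsi_injective A h) (dPsi_surjective A h),
    ContinuousLinearMap.ext fun z => rfl⟩

end

theorem lc : Pool.Agent.W743.HP.S_LC := by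
  intro X _ _ _ F hF a b hab e he hFe hbij l hle va vb hva hvb hla hlb δ hδ
  -- the points of the curve
  have hcurve : ContinuousOn (fun α : ℝ => ((α, 0, e α) : ℝ × ℝ × X)) (Icc a b) :=
    continuousOn_id.prodMk (continuousOn_const.prodMk he)
  set K : Set (ℝ × ℝ × X) := (fun α : ℝ => ((α, 0, e α) : ℝ × ℝ × X)) '' Icc a b with hK
  have hKc : IsCompact K := isCompact_Icc.image_of_continuousOn hcurve
  have hPK : ∀ α ∈ Icc a b, Psi F (α, 0, e α) = (α, 0, 0) := by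
    intro α hα
    show ((α, 0, F (α, 0, e α)) : ℝ × ℝ × X) = (α, 0, 0)
    rw [hFe α hα]
  have hinj : InjOn (Psi F) K := by
    rintro _ ⟨α, hα, rfl⟩ _ ⟨β, hβ, rfl⟩ h
    simp only at h
    rw [hPK α hα, hPK β hβ] at h
    have : α = β := congrArg Prod.fst h
    rw [this]
  have hPc : Continuous (Psi F) :=
    continuous_fst.prodMk ((continuous_fst.comp continuous_snd).prodMk hF.continuous)
  -- local homeomorphisms
  have hloc : ∀ p ∈ K, ∃ u : Set (ℝ × ℝ × X), IsOpen u ∧ p ∈ u ∧ InjOn (Psi F) u ∧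
      ∀ q ∈ u, map (Psi F) (𝓝 q) = 𝓝 (Psi F q) := by
    rintro _ ⟨α, hα, rfl⟩
    obtain ⟨T, hT⟩ := exists_equiv (fderiv ℝ F (α, 0, e α)) (hbij α hα)
    have h1 := Psi_strict F hF (α, 0, e α)
    rw [← hT] at h1
    refine ⟨(h1.toOpenPartialHomeomorph (Psi F)).source,
      (h1.toOpenPartialHomeomorph (Psi F)).open_source,
      h1.mem_toOpenPartialHomeomorph_source, ?_, ?_⟩
    · have := (h1.toOpenPartialHomeomorph (Psi F)).injOn
      rwa [h1.toOpenPartialHomeomorph_coe] at this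
    · intro q hq
      have := (h1.toOpenPartialHomeomorph (Psi F)).map_nhds_eq hq
      rwa [h1.toOpenPartialHomeomorph_coe] at this
  -- the open set where the map is a local homeomorphism
  set U : Set (ℝ × ℝ × X) := {q | map (Psi F) (𝓝 q) = 𝓝 (Psi F q)} with hU
  have hUn : ∀ p ∈ K, U ∈ 𝓝 p := by
    intro p hp
    obtain ⟨u, hu1, hu2, _, hu4⟩ := hloc p hp
    exact mem_of_superset (hu1.mem_nhds hu2) hu4
  obtain ⟨N1, hN1o, hN1K, hN1inj⟩ := hinj.exists_isOpen_superset hKc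
    (fun x _ => hPc.continuousAt)
    (fun x hx => by
      obtain ⟨u, hu1, hu2, hu3, _⟩ := hloc x hx
      exact ⟨u, hu1.mem_nhds hu2, hu3⟩)
  -- the extension of `e`
  set e1 : ℝ → X := IccExtend hab.le (fun t : Icc a b => e t) with he1
  have he1c : Continuous e1 := (continuousOn_iff_continuous_domRestrict.1 he).Icc_extend'
  have he1e : ∀ α ∈ Icc a b, e1 α = e α := by
    intro α hα
    rw [he1, IccExtend_of_mem _ _ hα]
  set N2 : Set (ℝ × ℝ × X) := {z | ‖z.2.2 - e1 z.1‖ < δ} with hN2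
  have hN2o : IsOpen N2 := by
    have : Continuous fun z : ℝ × ℝ × X => ‖z.2.2 - e1 z.1‖ := by fun_prop
    exact isOpen_lt this continuous_const
  set N : Set (ℝ × ℝ × X) := N1 ∩ N2 ∩ interior U with hN
  have hNo : IsOpen N := (hN1o.inter hN2o).inter isOpen_interior
  have hNK : K ⊆ N := by
    intro p hp
    refine ⟨⟨hN1K hp, ?_⟩, mem_interior_iff_mem_nhds.2 (hUn p hp)⟩
    obtain ⟨α, hα, rfl⟩ := hp
    show ‖e α - e1 α‖ < δ
    rw [he1e α hα, sub_self, norm_zero]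
    exact hδ
  have hNinj : InjOn (Psi F) N := hN1inj.mono fun x hx => hx.1.1
  have hNmap : ∀ q ∈ N, map (Psi F) (𝓝 q) = 𝓝 (Psi F q) := by
    intro q hq
    have h1 : q ∈ U := interior_subset hq.2
    exact h1
  -- the inverse map
  set g : ℝ × ℝ × X → ℝ × ℝ × X := Function.invFunOn (Psi F) N with hg
  have hgN : ∀ y ∈ Psi F '' N, g y ∈ N := fun y hy => Function.invFunOn_mem hy
  have hgP : ∀ y ∈ Psi F '' N, Psi F (g y) = y := fun y hy => Function.invFunOn_eq hy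
  have hgl : ∀ q ∈ N, g (Psi F q) = q := fun q hq => by
    have h1 : Psi F q ∈ Psi F '' N := mem_image_of_mem _ hq
    exact hNinj (hgN _ h1) hq (hgP _ h1)
  have hNimg : IsOpen (Psi F '' N) := by
    rw [isOpen_iff_mem_nhds]
    rintro _ ⟨q, hq, rfl⟩
    rw [← hNmap q hq]
    exact image_mem_map (hNo.mem_nhds hq)
  have hgc : ∀ q ∈ N, ContinuousAt g (Psi F q) := by
    intro q hq
    rw [ContinuousAt, ← hNmap q hq, tendsto_map'_iff, hgl q hq]
    refine tendsto_id.congr' ?_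
    filter_upwards [hNo.mem_nhds hq] with z hz
    exact (hgl z hz).symm
  -- the tube
  set V : Set (ℝ × ℝ) := {w | ((w.1, w.2, 0) : ℝ × ℝ × X) ∈ Psi F '' N} with hV
  have hVo : IsOpen V := by
    have : Continuous fun w : ℝ × ℝ => ((w.1, w.2, 0) : ℝ × ℝ × X) := by fun_prop
    exact hNimg.preimage this
  have hVs : Icc a b ×ˢ {(0 : ℝ)} ⊆ V := by
    rintro ⟨α, ε⟩ ⟨hα, hε⟩
    simp only [mem_singleton_iff] at hε
    simp only at hα
    subst hε
    refine ⟨(α, 0, e α), hNK ⟨α, hα, rfl⟩, hPK α hα⟩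
  obtain ⟨u, v, _, hv, hu', hv', huv⟩ := generalized_tube_lemma isCompact_Icc
    (isCompact_singleton (x := (0 : ℝ))) hVo hVs
  have hv0 : v ∈ 𝓝 (0 : ℝ) := hv.mem_nhds (hv' rfl)
  -- the function at an endpoint
  have hend : ∀ c ∈ Icc a b, ∀ w : X, fderiv ℝ F (c, 0, e c) (0, 1, w) = 0 →
      HasDerivAt (fun ε : ℝ => l (g (c, ε, 0)).2.2) (l w) 0 := by
    intro c hc w hw
    obtain ⟨T, hT⟩ := exists_equiv (fderiv ℝ F (c, 0, e c)) (hbij c hc)
    have h1 := Psi_strict F hF (c, 0, e c)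
    rw [← hT] at h1
    have hcN : ((c, 0, e c) : ℝ × ℝ × X) ∈ N := hNK ⟨c, hc, rfl⟩
    have h2 : g (c, 0, 0) = (c, 0, e c) := by
      have := hgl _ hcN
      rwa [hPK c hc] at this
    have h3 : ContinuousAt g (c, 0, 0) := by
      have := hgc _ hcN
      rwa [hPK c hc] at this
    have h4 : HasStrictFDerivAt g (T.symm : (ℝ × ℝ × X) →L[ℝ] (ℝ × ℝ × X)) (c, 0, 0) := by
      refine HasStrictFDerivAt.of_local_left_inverse (f := Psi F) h3 (by rw [h2]; exact h1) ?_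
      have : Psi F '' N ∈ 𝓝 ((c, 0, 0) : ℝ × ℝ × X) :=
        hNimg.mem_nhds ⟨(c, 0, e c), hcN, hPK c hc⟩
      filter_upwards [this] with y hy
      exact hgP y hy
    have h5 : HasDerivAt (fun ε : ℝ => ((c, ε, 0) : ℝ × ℝ × X)) (0, 1, 0) 0 :=
      (hasDerivAt_const _ _).prodMk ((hasDerivAt_id _).prodMk (hasDerivAt_const _ _))
    have h6 : HasDerivAt (fun ε : ℝ => g (c, ε, 0)) (T.symm (0, 1, 0)) 0 := by
      have h6' := HasFDerivAt.comp_hasDerivAt (l := g)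
        (f := fun ε : ℝ => ((c, ε, 0) : ℝ × ℝ × X)) (0 : ℝ) h4.hasFDerivAt h5
      exact h6'
    have h7 : T.symm (0, 1, 0) = (0, 1, w) := by
      rw [ContinuousLinearEquiv.symm_apply_eq]
      have : T (0, 1, w) = dPsi (fderiv ℝ F (c, 0, e c)) (0, 1, w) := by
        rw [← hT]
        rfl
      rw [this, dPsi_apply, hw]
    rw [h7] at h6
    have h8 := (l.comp ((ContinuousLinearMap.snd ℝ ℝ X).comp
      (ContinuousLinearMap.snd ℝ ℝ (ℝ × X)))).hasFDerivAt.comp_hasDerivAt (0 : ℝ) h6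
    exact h8
  have haI : a ∈ Icc a b := left_mem_Icc.2 hab.le
  have hbI : b ∈ Icc a b := right_mem_Icc.2 hab.le
  have hg0 : ∀ c ∈ Icc a b, l (g (c, 0, 0)).2.2 = 0 := by
    intro c hc
    have hcN : ((c, 0, e c) : ℝ × ℝ × X) ∈ N := hNK ⟨c, hc, rfl⟩
    have h2 : g (c, 0, 0) = (c, 0, e c) := by
      have := hgl _ hcN
      rwa [hPK c hc] at this
    rw [h2]
    exact hle c hc
  have hA : ∀ᶠ ε in 𝓝[>] (0 : ℝ), 0 < l (g (a, ε, 0)).2.2 :=
    eventually_pos_of_hasDerivAt _ _ hla (hend a haI va hva) (hg0 a haI)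
  have hB : ∀ᶠ ε in 𝓝[>] (0 : ℝ), 0 < - l (g (b, ε, 0)).2.2 :=
    eventually_pos_of_hasDerivAt (fun ε => - l (g (b, ε, 0)).2.2) (- l vb) (by linarith)
      (hend b hbI vb hvb).neg (by rw [hg0 b hbI, neg_zero])
  have hC : ∀ᶠ ε in 𝓝[>] (0 : ℝ), ε ∈ v := nhdsWithin_le_nhds hv0
  have hD : ∀ᶠ ε in 𝓝[>] (0 : ℝ), ε < δ := nhdsWithin_le_nhds (gt_mem_nhds hδ)
  have hE : ∀ᶠ ε in 𝓝[>] (0 : ℝ), 0 < ε := self_mem_nhdsWithin
  obtain ⟨ε, hA, hB, hC, hD, hE⟩ := (hA.and (hB.and (hC.and (hD.and hE)))).exists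
  have hmem : ∀ α ∈ Icc a b, ((α, ε, 0) : ℝ × ℝ × X) ∈ Psi F '' N := by
    intro α hα
    have : (α, ε) ∈ V := huv ⟨hu' hα, hC⟩
    exact this
  have hcont : ContinuousOn (fun α : ℝ => l (g (α, ε, 0)).2.2) (Icc a b) := by
    intro α hα
    refine ContinuousAt.continuousWithinAt ?_
    have h1 : ContinuousAt g (α, ε, 0) := by
      have := hgc _ (hgN _ (hmem α hα))
      rwa [hgP _ (hmem α hα)] at this
    have h2 : ContinuousAt (fun β : ℝ => ((β, ε, 0) : ℝ × ℝ × X)) α := by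
      have : Continuous fun β : ℝ => ((β, ε, 0) : ℝ × ℝ × X) := by fun_prop
      exact this.continuousAt
    have h3 : ContinuousAt (fun β : ℝ => g (β, ε, 0)) α :=
      ContinuousAt.comp (f := fun β : ℝ => ((β, ε, 0) : ℝ × ℝ × X)) (g := g) h1 h2
    have h4 : Continuous fun z : ℝ × ℝ × X => l z.2.2 := by fun_prop
    exact h4.continuousAt.comp h3
  obtain ⟨α, hα, h0⟩ := intermediate_value_Icc' hab.le hcont
    (show (0 : ℝ) ∈ Icc (l (g (b, ε, 0)).2.2) (l (g (a, ε, 0)).2.2) from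
      ⟨by linarith, hA.le⟩)
  have h1 := hgP _ (hmem α hα)
  have h2 := hgN _ (hmem α hα)
  have h3 : (g (α, ε, 0)).1 = α := congrArg Prod.fst h1
  have h4 : (g (α, ε, 0)).2.1 = ε := congrArg (fun z : ℝ × ℝ × X => z.2.1) h1
  have h5 : F (g (α, ε, 0)) = 0 := congrArg (fun z : ℝ × ℝ × X => z.2.2) h1
  have h6 : g (α, ε, 0) = (α, ε, (g (α, ε, 0)).2.2) := by
    refine Prod.ext h3 (Prod.ext h4 rfl)
  refine ⟨α, hα, ε, hE, hD, (g (α, ε, 0)).2.2, ?_, ?_, h0⟩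
  · have h7 : ‖(g (α, ε, 0)).2.2 - e1 (g (α, ε, 0)).1‖ < δ := h2.1.2
    rwa [h3, he1e α hα] at h7
  · rw [← h6]
    exact h5

end Pool.Agent.W287.HP
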